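import Pool.Agent.X298.HC.H2Main

/-!
# The pole of `L₂` at `s = 2` for products with varieties whose Albanese variety has CM

`X` is an arbitrary smooth projective variety over a number field `K`, and `Y` runs through the smooth
projective varieties over `K` such that the Frobenius eigenvalues on `H¹(Y)` are the values
`φ_l(v) q_v^{1/2}` of Hecke characters (Größencharaktere) `φ_1, …, φ_M` of `K`; by the theorem of
Shimura and Taniyama this is so if the Albanese variety of `Y` has complex multiplication over `K`.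

The group `NS(X × Y / K)` has the rank `rank NS(X / K) + rank NS(Y / K) + rank Hom(Alb X, Alb Y)`, so
Tate's conjecture says that the defect `δ = r(X × Y) - r(X) - r(Y)` of the orders of the poles of
`L₂(s)` at `s = 2` is `rank Hom(Alb X, Alb Y)`.  `homRank φ φ'` is the number of the pairs of equal
characters, for Albanese varieties with complex multiplication over `K` the rank of
`Hom(Alb Y, Alb Y')`, and `R` is `b₁(X)²` or the order of the pole of `L(H¹(X) ⊗ H¹(X), s)` at `s = 2`,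
which should be the rank of `End(Alb X)`.

The definitions are in `Pool.Agent.X298.HC.Defs` (`HeckeChar`: unitary Hecke characters),
`Pool.Agent.X298.HC.PDefs`, `Pool.Agent.X298.HC.H2Defs` and `Pool.Agent.W353.EF.Defs`,
`Pool.Agent.W353.EH.Defs` (Frobenius eigenvalues through the numbers of points, `IsEulerSystem`,
`size`, `HasOrder`).
-/

set_option autoImplicit false

namespace Pool.Agent.X298.Old.CMAlbaneseProducts

open NumberField IsDedekindDomain Filter Topology Polynomial Pool.Agent.X298.HC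
open Pool.Agent.W353.EH (edgePoint size HasOrder IsEulerSystem)

/-- **Products with varieties whose Albanese variety has complex multiplication.**  Let `X` be a
projective variety of dimension `d ≥ 1` over a number field `K`, with Betti numbers `N₁`, `N₂`, and let
`R = N₁²`, or let `R` be the order of the pole of `L(H¹(X) ⊗ H¹(X), s)` at `s = 2`.

1. Let `Y_k`, `k` in a finite set, be varieties over `K` of the kind described above, with characters
`φ_k`, and let `c_k ≥ 0`.  Let `D_k(ε)` be `log |L₂(2 + ε)| / log(1/ε)` for `X × Y_k`, minus the same for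
`X`, minus the same for `Y_k`.  For every `η > 0` and all small `ε > 0`,
`(∑ c_k D_k(ε))² ≤ R ∑ c_k c_l homRank(φ_k, φ_l) + η` (no continuation is assumed).  If `L₂` has
meromorphic continuations to `s = 2` for `X`, `Y_k` and `X × Y_k`, with poles of the orders `r(X)`,
`r(Y_k)`, `r(X × Y_k)`, then `(∑ c_k δ_k)² ≤ R ∑ c_k c_l homRank(φ_k, φ_l)` for
`δ_k = r(X × Y_k) - r(X) - r(Y_k)`.  (If `δ_k = rank Hom(Alb X, Alb Y_k)`, this is an instance of the
inequality of Cauchy and Schwarz.)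

2. For every `r` there is a set `S` of at most `2 (r + 1)² R` Hecke characters of `K` such that for all
`Y` of this kind with `b₁(Y) ≤ r`, none of whose characters is in `S`, the order of `L₂(s, X × Y)` at
`s = 2` is the sum of the orders of `L₂(s, X)` and `L₂(s, Y)`, if these exist, and in any case the
quotient of the logarithms for `X × Y` differs from the sum of those for `X` and `Y` by less than one,
for arbitrarily small `ε > 0`.

3. If all `L(H¹(X) ⊗ ψ, s)`, `ψ` a Hecke character of `K`, have meromorphic continuations to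
neighbourhoods of `s = 3/2`, then there is a set `S` of at most `2 R` Hecke characters such that the same
holds for all `Y` of this kind none of whose characters is in `S`, and the difference tends to `0`. -/
theorem result {K : Type} [Field K] [NumberField K] {n : ℕ}
    (X : Set (MvPolynomial (Fin n) (𝓞 K))) (d N₁ N₂ R : ℕ) (hd : 1 ≤ d) (hR : Moment1 X d N₁ R) :
    (∀ (κ : Type) [Fintype κ] (n' : κ → ℕ) (Y : ∀ k, Set (MvPolynomial (Fin (n' k)) (𝓞 K)))
      (e M₁ M₂ : κ → ℕ) (φ : ∀ k, Fin (M₁ k) → HeckeChar K)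
      (BX : HeightOneSpectrum (𝓞 K) → ℂ[X]) (BY B : κ → HeightOneSpectrum (𝓞 K) → ℂ[X])
      (c : κ → ℝ), (∀ k, 1 ≤ e k) → (∀ k, IsHecke1 (Y k) (e k) (M₁ k) (φ k)) →
      IsEulerSystem X d 2 N₂ 0 BX → (∀ k, IsEulerSystem (Y k) (e k) 2 (M₂ k) 0 (BY k)) →
      (∀ k, IsProduct2 X d N₁ N₂ (Y k) (e k) (M₁ k) (M₂ k) (B k)) → (∀ k, 0 ≤ c k) →
      (∀ η : ℝ, 0 < η → ∀ᶠ ε : ℝ in 𝓝[>] 0,
        (∑ k, c k * (size 2 0 (B k) ε - size 2 0 BX ε - size 2 0 (BY k) ε)) ^ 2 ≤
          R * (∑ k, ∑ l, c k * c l * homRank (φ k) (φ l)) + η) ∧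
      ∀ (rX : ℤ) (rY r : κ → ℤ), HasOrder 2 0 BX (-rX) → (∀ k, HasOrder 2 0 (BY k) (-rY k)) →
        (∀ k, HasOrder 2 0 (B k) (-r k)) →
        (∑ k, c k * (r k - rX - rY k : ℤ)) ^ 2 ≤
          R * ∑ k, ∑ l, c k * c l * homRank (φ k) (φ l)) ∧
    (∀ r : ℕ, ∃ S : Finset (HeckeChar K), S.card ≤ 2 * (r + 1) ^ 2 * R ∧
      ∀ (n' : ℕ) (Y : Set (MvPolynomial (Fin n') (𝓞 K))) (e M₁ M₂ : ℕ)
        (φ : Fin M₁ → HeckeChar K), 1 ≤ e → IsHecke1 Y e M₁ φ → M₁ ≤ r →
        (∀ l, ∀ ψ ∈ S, Distinct (φ l) ψ 0 0) →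
        ∀ BX BY B : HeightOneSpectrum (𝓞 K) → ℂ[X], IsEulerSystem X d 2 N₂ 0 BX →
          IsEulerSystem Y e 2 M₂ 0 BY → IsProduct2 X d N₁ N₂ Y e M₁ M₂ B →
          (∃ᶠ ε : ℝ in 𝓝[>] 0, |size 2 0 B ε - size 2 0 BX ε - size 2 0 BY ε| < 1) ∧
          ∀ k kX kY : ℤ, HasOrder 2 0 B k → HasOrder 2 0 BX kX → HasOrder 2 0 BY kY →
            k = kX + kY) ∧
    ((∀ ψ : HeckeChar K, ∃ (B : HeightOneSpectrum (𝓞 K) → ℂ[X]) (k : ℤ),
        IsTwist X d 1 N₁ ψ 0 B ∧ HasOrder 1 0 B k) →
      ∃ S : Finset (HeckeChar K), S.card ≤ 2 * R ∧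
      ∀ (n' : ℕ) (Y : Set (MvPolynomial (Fin n') (𝓞 K))) (e M₁ M₂ : ℕ)
        (φ : Fin M₁ → HeckeChar K), 1 ≤ e → IsHecke1 Y e M₁ φ →
        (∀ l, ∀ ψ ∈ S, Distinct (φ l) ψ 0 0) →
        ∀ BX BY B : HeightOneSpectrum (𝓞 K) → ℂ[X], IsEulerSystem X d 2 N₂ 0 BX →
          IsEulerSystem Y e 2 M₂ 0 BY → IsProduct2 X d N₁ N₂ Y e M₁ M₂ B →
          Tendsto (fun ε => size 2 0 B ε - size 2 0 BX ε - size 2 0 BY ε) (𝓝[>] 0) (𝓝 0) ∧
          ∀ k kX kY : ℤ, HasOrder 2 0 B k → HasOrder 2 0 BX kX → HasOrder 2 0 BY kY →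
            k = kX + kY) := by
  refine ⟨?_, fun r => h2_r hd hR r, fun H => h2_all hd hR H⟩
  intro κ _ n' Y e M₁ M₂ φ BX BY B c he hY hX hY2 hB hc
  exact ⟨fun η hη => family_sizes hd hR he hY hX hY2 hB c hc hη,
    fun rX rY r h1 h2 h3 => family_orders hd hR he hY hX hY2 hB c hc h1 h2 h3⟩

end Pool.Agent.X298.Old.CMAlbaneseProducts
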