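import Pool.Agent.X298.HC.Exc

/-!
# The edge line: twists by all Hecke characters, and products with varieties of Hecke type

`X` is a smooth projective variety over a number field `K` (also a variety over `ℚ`, with the same
`L`-functions).  The edge line of `L(H^i(X), s)` is the line `Re s = i/2 + 1`; by the conjecture the only
point of this line where there can be a pole is `s = i/2 + 1`.

The theorem is about the orders at all points of the edge line (poles and zeros) of the functions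
`L(H^a(X) ⊗ ψ, s)` for all the Hecke characters `ψ` of `K` (Größencharaktere of arbitrary infinity type)
together, and of the functions `L(H^i(X × Y), s)` for all the varieties `Y` of Hecke type (the
eigenvalues of Frobenius on `H^b(Y)` are the values of Hecke characters times `q_v^{b/2}`, for instance
abelian varieties with complex multiplication, the Fermat hypersurfaces, and their products, over
suitable `K`).

The definitions are in `Pool.Agent.X298.HC.Defs` (`HeckeChar`: unitary Hecke characters),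
`Pool.Agent.X298.HC.PDefs` and `Pool.Agent.W353.EF.Defs`, `Pool.Agent.W353.EH.Defs` (Frobenius
eigenvalues through the numbers of points, `IsEulerSystem`, `size`, `HasOrder`).
-/

set_option autoImplicit false

namespace Pool.Agent.X298.Old.HeckeEdgeLine

open NumberField IsDedekindDomain Filter Topology Polynomial Pool.Agent.X298.HC
open Pool.Agent.W353.EF (LFun)
open Pool.Agent.W353.EH (edgePoint size HasOrder IsEulerSystem)

/-- **The edge line for Hecke twists and for products.**  Let `X` be a projective variety of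
dimension `d` over a number field `K`, with Betti numbers `N a`, and for `a ≤ 2 d` let `R a = (N a)²`, or
let `R a` be the order of the pole of `L(H^a(X) ⊗ H^a(X), s)` at `s = a + 1`.

1. Let `(ψ_k, τ_k)` be finitely many different pairs of Hecke characters and real numbers.  For every
`η > 0` and all small `ε > 0` the `L(H^a(X) ⊗ ψ_k, s)` are not zero at `a/2 + 1 + iτ_k + ε`, and the sum
of the squares of `log |L(H^a(X) ⊗ ψ_k, a/2 + 1 + iτ_k + ε)| / log(1/ε)` is at most `(N a)² + η` (no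
continuation is assumed).  If the orders `m_k` at `a/2 + 1 + iτ_k` exist, then `∑ m_k² ≤ R a`.

2. For every `k ≥ 1` there is a set `S` of at most `k² R a` pairs `(ψ, σ)` such that for all pairs
`(ψ, τ)` outside of `S`, `|log |L(H^a(X) ⊗ ψ, a/2 + 1 + iτ + ε)| / log(1/ε)| < 1/k` for arbitrarily small
`ε > 0`, and the order at `a/2 + 1 + iτ` is `0` if it exists: there is no pole and no zero.

3. For a variety `Y` of Hecke type and dimension `e` let `T b` be the number of the trivial characters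
in `H^b(Y)`, and let `s_i` be `log |L(i/2 + 1 + iτ + ε)| / log(1/ε)` for `L(H^i(X × Y), s)`, and `s'_a` the
same for `L(H^a(X), s)` at the same height.  For every `r` there is a set `S` of at most `r² ∑ R a`
pairs `(ψ, σ)` such that for all varieties `Y` of Hecke type, all `i` and all real `τ` such that the
`H^b(Y)`, `i - 2d ≤ b ≤ i`, contain at most `r` nontrivial characters `φ`, and no `(φ, τ)` is in `S`:
`|s_i - ∑ T(i - a) s'_a| < 1` for arbitrarily small `ε > 0`, and if the orders at the height `τ` exist,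
then that of `L(H^i(X × Y), s)` is the sum of the orders of the `L(H^a(X), s)`, each one taken
`T(i - a)` times.

4. If all `L(H^a(X) ⊗ ψ, s)`, `ψ` a Hecke character and `a ≤ 2 d`, have meromorphic continuations to
neighbourhoods of all points of the edge line, then there is one set `S` of at most `∑ R a` pairs such
that the same holds for all `Y` of Hecke type, all `i` and all `τ` such that no `(φ, τ)`, `φ` a
nontrivial character in `H^b(Y)`, `i - 2d ≤ b ≤ i`, is in `S` (there may be any number of them), and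
`s_i - ∑ T(i - a) s'_a` tends to `0`. -/
theorem result {K : Type} [Field K] [NumberField K] {n : ℕ}
    (X : Set (MvPolynomial (Fin n) (𝓞 K))) (d : ℕ) (N R : ℕ → ℕ) (hR : SecondMoment X d N R) :
    (∀ a ≤ 2 * d, ∀ (κ : Type) [Fintype κ] (ψ : κ → HeckeChar K) (τ : κ → ℝ),
      (∀ k l, k ≠ l → Distinct (ψ k) (ψ l) (τ k) (τ l)) →
      ∀ B : κ → HeightOneSpectrum (𝓞 K) → ℂ[X], (∀ k, IsTwist X d a (N a) (ψ k) (τ k) (B k)) →
        (∀ η : ℝ, 0 < η → ∀ᶠ ε : ℝ in 𝓝[>] 0, (∀ k, LFun (B k) (edgePoint a (τ k) + ε) ≠ 0) ∧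
          ∑ k, size a (τ k) (B k) ε ^ 2 ≤ (N a : ℝ) ^ 2 + η) ∧
        ∀ m : κ → ℤ, (∀ k, HasOrder a (τ k) (B k) (m k)) → ∑ k, m k ^ 2 ≤ (R a : ℤ)) ∧
    (∀ a ≤ 2 * d, ∀ k : ℕ, 0 < k → ∃ S : Finset (HeckeChar K × ℝ), S.card ≤ k ^ 2 * R a ∧
      ∀ (ψ : HeckeChar K) (τ : ℝ), (∀ s ∈ S, Distinct ψ s.1 τ s.2) →
        ∀ B : HeightOneSpectrum (𝓞 K) → ℂ[X], IsTwist X d a (N a) ψ τ B →
          (∃ᶠ ε : ℝ in 𝓝[>] 0, |size a τ B ε| < 1 / k) ∧ ∀ m : ℤ, HasOrder a τ B m → m = 0) ∧
    (∀ r : ℕ, ∃ S : Finset (HeckeChar K × ℝ),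
      S.card ≤ r ^ 2 * ∑ a ∈ Finset.range (2 * d + 1), R a ∧
      ∀ (n' : ℕ) (Y : Set (MvPolynomial (Fin n') (𝓞 K))) (e : ℕ) (M : ℕ → ℕ)
        (φ : ∀ b, Fin (M b) → HeckeChar K) (i : ℕ) (τ : ℝ), IsHeckeType Y e M φ →
        ∑ p ∈ degrees d e i, nontrivials M φ p.2 ≤ r →
        (∀ p ∈ degrees d e i, ∀ l, ¬ (φ p.2 l).IsTrivial →
          ∀ s ∈ S, Distinct (φ p.2 l) s.1 τ s.2) →
        ∀ (B : HeightOneSpectrum (𝓞 K) → ℂ[X]) (B' : ℕ → HeightOneSpectrum (𝓞 K) → ℂ[X]),
          IsProduct X d N Y e M i τ B →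
          (∀ p ∈ degrees d e i, trivials M φ p.2 ≠ 0 →
            IsEulerSystem X d p.1 (N p.1) τ (B' p.1)) →
          (∃ᶠ ε : ℝ in 𝓝[>] 0, |size i τ B ε -
            ∑ p ∈ degrees d e i, trivials M φ p.2 * size p.1 τ (B' p.1) ε| < 1) ∧
          ∀ (k : ℤ) (k' : ℕ → ℤ), HasOrder i τ B k →
            (∀ p ∈ degrees d e i, trivials M φ p.2 ≠ 0 →
              HasOrder p.1 τ (B' p.1) (k' p.1)) →
            k = ∑ p ∈ degrees d e i, trivials M φ p.2 * k' p.1) ∧
    ((∀ a ≤ 2 * d, ∀ (ψ : HeckeChar K) (τ : ℝ),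
        ∃ (B : HeightOneSpectrum (𝓞 K) → ℂ[X]) (k : ℤ),
        IsTwist X d a (N a) ψ τ B ∧ HasOrder a τ B k) →
      ∃ S : Finset (HeckeChar K × ℝ), S.card ≤ ∑ a ∈ Finset.range (2 * d + 1), R a ∧
      ∀ (n' : ℕ) (Y : Set (MvPolynomial (Fin n') (𝓞 K))) (e : ℕ) (M : ℕ → ℕ)
        (φ : ∀ b, Fin (M b) → HeckeChar K) (i : ℕ) (τ : ℝ), IsHeckeType Y e M φ →
        (∀ p ∈ degrees d e i, ∀ l, ¬ (φ p.2 l).IsTrivial →
          ∀ s ∈ S, Distinct (φ p.2 l) s.1 τ s.2) →
        ∀ (B : HeightOneSpectrum (𝓞 K) → ℂ[X]) (B' : ℕ → HeightOneSpectrum (𝓞 K) → ℂ[X]),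
          IsProduct X d N Y e M i τ B →
          (∀ p ∈ degrees d e i, trivials M φ p.2 ≠ 0 →
            IsEulerSystem X d p.1 (N p.1) τ (B' p.1)) →
          Tendsto (fun ε : ℝ => size i τ B ε -
            ∑ p ∈ degrees d e i, trivials M φ p.2 * size p.1 τ (B' p.1) ε)
            (𝓝[>] 0) (𝓝 0) ∧
          ∀ (k : ℤ) (k' : ℕ → ℤ), HasOrder i τ B k →
            (∀ p ∈ degrees d e i, trivials M φ p.2 ≠ 0 →
              HasOrder p.1 τ (B' p.1) (k' p.1)) →
            k = ∑ p ∈ degrees d e i, trivials M φ p.2 * k' p.1) := by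
  classical
  have hA : ∀ a ∈ Finset.range (2 * d + 1), a ≤ 2 * d := fun a ha => by
    have := Finset.mem_range.1 ha
    omega
  have hmem : ∀ (e i : ℕ), ∀ p ∈ degrees d e i, p.1 ∈ Finset.range (2 * d + 1) := by
    intro e i p hp
    have := (mem_degrees.1 hp).2.1
    exact Finset.mem_range.2 (by omega)
  refine ⟨fun a ha κ _ ψ τ hsep B hB => ⟨fun η hη => ?_, fun m hm =>
    bessel_orders2 ha ψ τ hsep B hB m hm (second hR ha)⟩, fun a ha k hk => twist_exc hR ha hk,
    fun r => ?_, fun H => ?_⟩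
  · refine Filter.Eventually.and (Filter.eventually_all.2 fun k => (twist_size ha (hB k)).1) ?_
    exact bessel_sizes3 ha ψ τ hsep B hB hη
  · obtain ⟨S, hS, h⟩ := kunneth_r2 X d N R hR (Finset.range (2 * d + 1)) hA r
    exact ⟨S, hS, fun n' Y e M φ i τ hY hr hφ B B' hB hB' =>
      h n' Y e M φ i τ hY (hmem e _) hr hφ B B' hB hB'⟩
  · obtain ⟨S, hS, h⟩ := kunneth_all2 X d N R hR (Finset.range (2 * d + 1)) hA Set.univ (by
      intro a ha ψ τ _
      exact H a (hA a ha) ψ τ)
    exact ⟨S, hS, fun n' Y e M φ i τ hY hφ B B' hB hB' =>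
      h n' Y e M φ i τ (Set.mem_univ _) hY (hmem e _) hφ B B' hB hB'⟩

end Pool.Agent.X298.Old.HeckeEdgeLine
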