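import Pool.Agent.X298.HC.Kun

/-!
# The order of the pole at `s = m + 1` for the products of a variety with the varieties of Hecke type

`X` is a smooth projective variety over a number field `K` (also a variety over `ℚ`, with the same
`L`-functions).  A variety `Y` over `K` is of Hecke type if its Frobenius eigenvalues on `H^b(Y)` are the
values `φ(v) q_v^{b/2}` of Hecke characters `φ` (Größencharaktere of arbitrary infinity type): by the
theorems of Deuring, Shimura, Taniyama and Weil this is the case for the abelian varieties with complex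
multiplication, the Fermat hypersurfaces, and their products, over suitable `K`; in particular for all
powers `E^k` of an elliptic curve with complex multiplication, in whose cohomology all the powers
`ψ^j`, `|j| ≤ k`, of the Hecke character of `E` occur.

By Künneth `H^{2m}(X × Y)` is the sum of the `H^a(X) ⊗ H^b(Y)`, `a + b = 2m`, and each trivial character
in `H^b(Y)` gives a copy of `H^a(X)` (twisted).  The other characters are expected to contribute to the
pole at `s = m + 1` only if they occur in the cohomology of `X`.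

The definitions are in `Pool.Agent.X298.HC.Defs` (`HeckeChar`: unitary Hecke characters),
`Pool.Agent.X298.HC.PDefs` and `Pool.Agent.W353.EF.Defs`, `Pool.Agent.W353.EH.Defs` (Frobenius
eigenvalues through the numbers of points, `IsEulerSystem`, `size`, `HasOrder`).
-/

set_option autoImplicit false

namespace Pool.Agent.X298.Old.ProductsWithHeckeType

open NumberField IsDedekindDomain Filter Topology Polynomial Pool.Agent.X298.HC
open Pool.Agent.W353.EH (edgePoint size HasOrder IsEulerSystem)

/-- **The pole of the products `X × Y`, `Y` of Hecke type.**  Let `X` be a projective variety of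
dimension `d` over a number field `K`, with Betti numbers `N a`, and for `a ≤ 2 d` let `R a = (N a)²`, or
let `R a` be the order of the pole of `L(H^a(X) ⊗ H^a(X), s)` at `s = a + 1`.  For a variety `Y` of Hecke
type and dimension `e` let `T b` be the number of the trivial characters in `H^b(Y)`, and let `s_i` be
`log |L(i/2 + 1 + ε)| / log(1/ε)` for `L(H^i(X × Y), s)`, and `s'_a` the same for `L(H^a(X), s)`.

1. For every `r` there is a set `S` of at most `2 (r + 1)² ∑ R a` Hecke characters such that for all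
varieties `Y` of Hecke type and all `m` such that `H^b(Y)`, `2m - 2d ≤ b ≤ 2m`, contain at most `r`
nontrivial characters, none of them in `S`: `|s_{2m} - ∑ T(2m - a) s'_a| < 1` for arbitrarily small
`ε > 0` (no continuation is assumed), and if the orders at the edge exist, then
`ord_{s = m + 1} L(H^{2m}(X × Y), s) = ∑ T(2m - a) ord_{s = a/2 + 1} L(H^a(X), s)`.

2. If all `L(H^a(X) ⊗ ψ, s)`, `ψ` a Hecke character and `a ≤ 2 d`, have meromorphic continuations to
neighbourhoods of `s = a/2 + 1`, then there is a set `S` of at most `2 ∑ R a` Hecke characters such that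
for all `Y` of Hecke type and all `m` such that no nontrivial character in `H^b(Y)`,
`2m - 2d ≤ b ≤ 2m`, is in `S` (there may be any number of them), `s_{2m} - ∑ T(2m - a) s'_a` tends to
`0`, and the formula for the orders holds. -/
theorem result {K : Type} [Field K] [NumberField K] {n : ℕ}
    (X : Set (MvPolynomial (Fin n) (𝓞 K))) (d : ℕ) (N R : ℕ → ℕ) (hR : SecondMoment X d N R) :
    (∀ r : ℕ, ∃ S : Finset (HeckeChar K),
      S.card ≤ 2 * (r + 1) ^ 2 * ∑ a ∈ Finset.range (2 * d + 1), R a ∧
      ∀ (n' : ℕ) (Y : Set (MvPolynomial (Fin n') (𝓞 K))) (e : ℕ) (M : ℕ → ℕ)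
        (φ : ∀ b, Fin (M b) → HeckeChar K) (m : ℕ), IsHeckeType Y e M φ →
        ∑ p ∈ degrees d e (2 * m), nontrivials M φ p.2 ≤ r →
        (∀ p ∈ degrees d e (2 * m), ∀ l, ¬ (φ p.2 l).IsTrivial →
          ∀ ψ ∈ S, Distinct (φ p.2 l) ψ 0 0) →
        ∀ (B : HeightOneSpectrum (𝓞 K) → ℂ[X]) (B' : ℕ → HeightOneSpectrum (𝓞 K) → ℂ[X]),
          IsProduct X d N Y e M (2 * m) 0 B →
          (∀ p ∈ degrees d e (2 * m), trivials M φ p.2 ≠ 0 →
            IsEulerSystem X d p.1 (N p.1) 0 (B' p.1)) →
          (∃ᶠ ε : ℝ in 𝓝[>] 0, |size (2 * m) 0 B ε -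
            ∑ p ∈ degrees d e (2 * m), trivials M φ p.2 * size p.1 0 (B' p.1) ε| < 1) ∧
          ∀ (k : ℤ) (k' : ℕ → ℤ), HasOrder (2 * m) 0 B k →
            (∀ p ∈ degrees d e (2 * m), trivials M φ p.2 ≠ 0 →
              HasOrder p.1 0 (B' p.1) (k' p.1)) →
            k = ∑ p ∈ degrees d e (2 * m), trivials M φ p.2 * k' p.1) ∧
    ((∀ a ≤ 2 * d, ∀ ψ : HeckeChar K, ∃ (B : HeightOneSpectrum (𝓞 K) → ℂ[X]) (k : ℤ),
        IsTwist X d a (N a) ψ 0 B ∧ HasOrder a 0 B k) →
      ∃ S : Finset (HeckeChar K), S.card ≤ 2 * ∑ a ∈ Finset.range (2 * d + 1), R a ∧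
      ∀ (n' : ℕ) (Y : Set (MvPolynomial (Fin n') (𝓞 K))) (e : ℕ) (M : ℕ → ℕ)
        (φ : ∀ b, Fin (M b) → HeckeChar K) (m : ℕ), IsHeckeType Y e M φ →
        (∀ p ∈ degrees d e (2 * m), ∀ l, ¬ (φ p.2 l).IsTrivial →
          ∀ ψ ∈ S, Distinct (φ p.2 l) ψ 0 0) →
        ∀ (B : HeightOneSpectrum (𝓞 K) → ℂ[X]) (B' : ℕ → HeightOneSpectrum (𝓞 K) → ℂ[X]),
          IsProduct X d N Y e M (2 * m) 0 B →
          (∀ p ∈ degrees d e (2 * m), trivials M φ p.2 ≠ 0 →
            IsEulerSystem X d p.1 (N p.1) 0 (B' p.1)) →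
          Tendsto (fun ε : ℝ => size (2 * m) 0 B ε -
            ∑ p ∈ degrees d e (2 * m), trivials M φ p.2 * size p.1 0 (B' p.1) ε)
            (𝓝[>] 0) (𝓝 0) ∧
          ∀ (k : ℤ) (k' : ℕ → ℤ), HasOrder (2 * m) 0 B k →
            (∀ p ∈ degrees d e (2 * m), trivials M φ p.2 ≠ 0 →
              HasOrder p.1 0 (B' p.1) (k' p.1)) →
            k = ∑ p ∈ degrees d e (2 * m), trivials M φ p.2 * k' p.1) := by
  classical
  have hA : ∀ a ∈ Finset.range (2 * d + 1), a ≤ 2 * d := fun a ha => by
    have := Finset.mem_range.1 ha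
    omega
  have hmem : ∀ (e i : ℕ), ∀ p ∈ degrees d e i, p.1 ∈ Finset.range (2 * d + 1) := by
    intro e i p hp
    have := (mem_degrees.1 hp).2.1
    exact Finset.mem_range.2 (by omega)
  have key : ∀ S : Finset (HeckeChar K × ℝ), ∀ φ : HeckeChar K,
      (∀ ψ ∈ S.image Prod.fst, Distinct φ ψ 0 0) → ∀ s ∈ S, Distinct φ s.1 0 s.2 := by
    intro S φ h s hs
    by_cases h0 : (0 : ℝ) = s.2
    · rw [← h0]
      exact h s.1 (Finset.mem_image_of_mem _ hs)
    · exact Or.inl h0
  refine ⟨fun r => ?_, fun H => ?_⟩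
  · obtain ⟨S, hS, h⟩ := kunneth_r X d N R hR (Finset.range (2 * d + 1)) hA r
    refine ⟨S.image Prod.fst, Finset.card_image_le.trans hS, ?_⟩
    intro n' Y e M φ m hY hr hφ B B' hB hB'
    exact h n' Y e M φ (2 * m) 0 hY (hmem e _) hr
      (fun p hp l hl => key S _ (hφ p hp l hl)) B B' hB hB'
  · obtain ⟨S, hS, h⟩ := kunneth_all X d N R hR (Finset.range (2 * d + 1)) hA {0} (by
      intro a ha ψ τ hτ
      rw [Set.mem_singleton_iff] at hτ
      subst hτ
      exact H a (hA a ha) ψ)
    refine ⟨S.image Prod.fst, Finset.card_image_le.trans hS, ?_⟩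
    intro n' Y e M φ m hY hφ B B' hB hB'
    exact h n' Y e M φ (2 * m) 0 rfl hY (hmem e _)
      (fun p hp l hl => key S _ (hφ p hp l hl)) B B' hB hB'

end Pool.Agent.X298.Old.ProductsWithHeckeType
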